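import Pool.Agent.Helper59_Flow.Defs2

set_option autoImplicit false

/-!
Module D, part 1: small representatives, transport of the flow to the subtype.
-/

open Set Topology Filter

namespace Pool.Agent.Helper59_Flow

namespace ModD

/-! ### small representatives -/

theorem exists_sm (a : AddCircle (1 : ℝ)) : ∃ x : ℝ, (x : AddCircle (1 : ℝ)) = a ∧ |x| = ‖a‖ := by
  obtain ⟨y, rfl⟩ := QuotientAddGroup.mk_surjective a
  refine ⟨y - round y, ?_, ?_⟩
  · have : ((round y : ℝ) : AddCircle (1 : ℝ)) = 0 :=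
      (AddCircle.coe_eq_zero_iff (1 : ℝ)).2 ⟨round y, by simp⟩
    rw [AddCircle.coe_sub, this, sub_zero]
  · have := UnitAddCircle.norm_eq (x := y)
    exact this.symm

/-- small representative -/
noncomputable def sm (a : AddCircle (1 : ℝ)) : ℝ := (exists_sm a).choose

theorem coe_sm (a : AddCircle (1 : ℝ)) : (sm a : AddCircle (1 : ℝ)) = a := (exists_sm a).choose_spec.1

theorem abs_sm (a : AddCircle (1 : ℝ)) : |sm a| = ‖a‖ := (exists_sm a).choose_spec.2

theorem norm_le_half (a : AddCircle (1 : ℝ)) : ‖a‖ ≤ 1 / 2 := by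
  have := AddCircle.norm_le_half_period (p := (1 : ℝ)) (x := a) one_ne_zero
  simpa using this

theorem norm_coe_of_le {x : ℝ} (h : |x| ≤ 1 / 2) : ‖(x : AddCircle (1 : ℝ))‖ = |x| :=
  (AddCircle.norm_coe_eq_abs_iff (p := (1 : ℝ)) one_ne_zero).2 (by simpa using h)

theorem eq_of_coe_eq {x y : ℝ} (h : (x : AddCircle (1 : ℝ)) = y) (hd : |x - y| < 1) : x = y := by
  have h0 : ((x - y : ℝ) : AddCircle (1 : ℝ)) = 0 := by rw [AddCircle.coe_sub, h, sub_self]
  obtain ⟨n, hn⟩ := (AddCircle.coe_eq_zero_iff (1 : ℝ)).1 h0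
  have hn' : (n : ℝ) = x - y := by simpa using hn
  rw [← hn'] at hd
  have h1 : |n| < 1 := by exact_mod_cast hd
  have h2 : n = 0 := Int.abs_lt_one_iff.1 h1
  rw [h2] at hn'
  simp only [Int.cast_zero] at hn'
  linarith

theorem pr_add (r r' : R3) : pr (r + r') = pr r + pr r' := by
  funext i
  simp [pr]

theorem pr_sub (r r' : R3) : pr (r - r') = pr r - pr r' := by
  funext i
  simp [pr]

theorem pr_zero : pr 0 = 0 := by
  funext i
  simp [pr]

theorem continuous_pr : Continuous pr := by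
  unfold pr
  exact continuous_pi (fun i => (AddCircle.continuous_mk' (1 : ℝ)).comp (continuous_apply i))

theorem eq_of_pr_eq {r r' : R3} (h : pr r = pr r') (hd : ‖r - r'‖ < 1) : r = r' := by
  funext i
  refine eq_of_coe_eq (congrFun h i) ?_
  have := norm_le_pi_norm (r - r') i
  simp only [Pi.sub_apply, Real.norm_eq_abs] at this
  exact lt_of_le_of_lt this hd

/-- small representative -/
noncomputable def SM (a : T3) : R3 := fun i => sm (a i)

theorem pr_SM (a : T3) : pr (SM a) = a := by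
  funext i
  exact coe_sm _

theorem norm_SM (a : T3) : ‖SM a‖ = ‖a‖ := by
  refine le_antisymm ?_ ?_
  · refine (pi_norm_le_iff_of_nonneg (norm_nonneg _)).2 (fun i => ?_)
    rw [Real.norm_eq_abs, SM, abs_sm]
    exact norm_le_pi_norm a i
  · refine (pi_norm_le_iff_of_nonneg (norm_nonneg _)).2 (fun i => ?_)
    rw [← abs_sm]
    have := norm_le_pi_norm (SM a) i
    exact this

theorem norm_T3_le (a : T3) : ‖a‖ ≤ 1 / 2 :=
  (pi_norm_le_iff_of_nonneg (by norm_num)).2 (fun i => norm_le_half (a i))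

theorem norm_pr_of_le {r : R3} (h : ‖r‖ ≤ 1 / 2) : ‖pr r‖ = ‖r‖ := by
  have h1 : ∀ i, |r i| ≤ 1 / 2 := fun i => (norm_le_pi_norm r i).trans h
  refine le_antisymm ?_ ?_
  · refine (pi_norm_le_iff_of_nonneg (norm_nonneg _)).2 (fun i => ?_)
    have : ‖pr r i‖ = |r i| := norm_coe_of_le (h1 i)
    rw [this]
    exact norm_le_pi_norm r i
  · refine (pi_norm_le_iff_of_nonneg (norm_nonneg _)).2 (fun i => ?_)
    have : ‖pr r i‖ = |r i| := norm_coe_of_le (h1 i)
    rw [Real.norm_eq_abs, ← this]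
    exact norm_le_pi_norm (pr r) i

theorem norm_pr_le (r : R3) : ‖pr r‖ ≤ ‖r‖ := by
  by_cases h : ‖r‖ ≤ 1 / 2
  · exact (norm_pr_of_le h).le
  · exact (norm_T3_le _).trans (not_le.1 h).le

theorem SM_pr {r : R3} (h : ‖r‖ < 1 / 2) : SM (pr r) = r := by
  refine eq_of_pr_eq (pr_SM _) ?_
  have h1 : ‖SM (pr r)‖ ≤ 1 / 2 := by rw [norm_SM]; exact norm_T3_le _
  calc ‖SM (pr r) - r‖ ≤ ‖SM (pr r)‖ + ‖r‖ := norm_sub_le _ _
    _ < 1 := by linarith

/-- `SM` is isometric on the ball of radius `1/4`. -/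
theorem SM_sub {a b : T3} (ha : ‖a‖ < 1 / 4) (hb : ‖b‖ < 1 / 4) : ‖SM a - SM b‖ = ‖a - b‖ := by
  have h1 : ‖SM a - SM b‖ ≤ 1 / 2 := by
    calc ‖SM a - SM b‖ ≤ ‖SM a‖ + ‖SM b‖ := norm_sub_le _ _
      _ = ‖a‖ + ‖b‖ := by rw [norm_SM, norm_SM]
      _ ≤ 1 / 2 := by linarith
  rw [← norm_pr_of_le h1, pr_sub, pr_SM, pr_SM]

theorem continuousOn_SM : ContinuousOn SM {a | ‖a‖ < 1 / 4} := by
  rw [Metric.continuousOn_iff]
  intro b hb ε hε
  refine ⟨ε, hε, fun a ha hab => ?_⟩
  rw [dist_eq_norm, SM_sub ha hb, ← dist_eq_norm]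
  exact hab

/-! ### Transport to the subtype -/

/-- The properties of the flow and the quotient map on the subtype that are needed. -/
structure Setup (S : Set ℂ) (F : ℝ → N S → N S) (q : N S → T3) : Prop where
  isClosed : IsClosed S
  cont : Continuous (fun x : ℝ × N S => F x.1 x.2)
  zero : ∀ p, F 0 p = p
  add : ∀ s t p, F (s + t) p = F s (F t p)
  qcont : Continuous q
  qopen : IsOpenMap q
  qsurj : Function.Surjective q
  fibre : ∀ p p', q p = q p' ↔ ∃ t, F t p = p'
  fb : ∀ p₀, (∃ t, F t p₀ ≠ p₀) → ∃ (ρ : ℝ) (σ : R3 → N S) (τ : N S → ℝ) (θ : N S → R3)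
      (V : Set (N S)), 0 < ρ ∧ V ∈ 𝓝 p₀ ∧ ContinuousOn σ (Metric.ball 0 ρ) ∧
        (∀ y ∈ Metric.ball (0 : R3) ρ, q (σ y) = q p₀ + pr y) ∧
        ContinuousOn τ V ∧ ContinuousOn θ V ∧
        ∀ p ∈ V, θ p ∈ Metric.ball (0 : R3) ρ ∧ q p = q p₀ + pr (θ p) ∧
          F (τ p) (σ (θ p)) = p

/-- The homeomorphism from `AddCircle 1` to the circle. -/
noncomputable def hc : AddCircle (1 : ℝ) ≃ₜ Circle := AddCircle.homeomorphCircle one_ne_zero

theorem hc_coe (x : ℝ) : (hc (x : AddCircle (1 : ℝ)) : ℂ) = Complex.exp (2 * Real.pi * Complex.I * x) := by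
  unfold hc
  rw [AddCircle.homeomorphCircle_apply, AddCircle.toCircle_apply_mk, Circle.coe_exp]
  congr 1
  push_cast
  ring

theorem hc_add (a b : AddCircle (1 : ℝ)) : (hc (a + b) : ℂ) = hc a * hc b := by
  unfold hc
  rw [AddCircle.homeomorphCircle_apply, AddCircle.homeomorphCircle_apply,
    AddCircle.homeomorphCircle_apply, AddCircle.toCircle_add, Circle.coe_mul]

theorem exists_setup (hFB : FBStatement) (S : Set ℂ) (φ : ℝ → ℂ × ℂ → ℂ × ℂ)
    (q : ℂ × ℂ → Fin 3 → ℂ) (hS : IsClosed S) (hφ : IsFlow S φ) (hq : IsTorusQuotient S φ q) :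
    ∃ (F : ℝ → N S → N S) (q' : N S → T3), Setup S F q' := by
  have hmem : ∀ p : N S, p.1 ∈ space S := fun p => p.2
  let F : ℝ → N S → N S := fun t p => ⟨φ t p.1, hφ.mem t p.1 p.2⟩
  let qc : N S → Fin 3 → Circle := fun p i => ⟨q p.1 i, by
    exact mem_sphere_zero_iff_norm.2 (hq.mem p.1 p.2 i)⟩
  let q' : N S → T3 := fun p i => hc.symm (qc p i)
  have hq' : ∀ p i, (hc (q' p i) : ℂ) = q p.1 i := by
    intro p i
    simp only [q', Homeomorph.apply_symm_apply]
    rfl
  have hcont : Continuous (fun x : ℝ × N S => F x.1 x.2) := by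
    refine Continuous.subtype_mk ?_ _
    have h1 := hφ.contDiffOn.continuousOn
    exact h1.comp_continuous (f := fun x : ℝ × N S => (x.1, x.2.1)) (by fun_prop)
      (fun x => ⟨mem_univ _, x.2.2⟩)
  have hzero : ∀ p, F 0 p = p := fun p => Subtype.ext (hφ.zero p.1 p.2)
  have hadd : ∀ s t p, F (s + t) p = F s (F t p) := fun s t p => Subtype.ext (hφ.add s t p.1 p.2)
  have hqcv : Continuous (fun p : N S => q p.1) := by
    have h1 := hq.continuousOn
    exact h1.comp_continuous continuous_subtype_val (fun p => p.2)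
  have hqc : Continuous qc := by
    refine continuous_pi (fun i => ?_)
    refine Continuous.subtype_mk ?_ _
    exact (continuous_apply i).comp hqcv
  have hqcont : Continuous q' := by
    refine continuous_pi (fun i => ?_)
    exact hc.symm.continuous.comp ((continuous_apply i).comp hqc)
  -- equality of values
  have heq : ∀ p p', q' p = q' p' ↔ q p.1 = q p'.1 := by
    intro p p'
    constructor
    · intro h
      funext i
      rw [← hq' p i, ← hq' p' i, h]
    · intro h
      funext i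
      apply hc.injective
      apply Circle.ext
      rw [hq', hq', h]
  have hfib : ∀ p p', q' p = q' p' ↔ ∃ t, F t p = p' := by
    intro p p'
    rw [heq, hq.fibre p.1 p.2 p'.1 p'.2]
    constructor
    · rintro ⟨t, ht⟩
      exact ⟨t, Subtype.ext ht⟩
    · rintro ⟨t, ht⟩
      exact ⟨t, congrArg Subtype.val ht⟩
  have hsurj : Function.Surjective q' := by
    intro a
    obtain ⟨p, hp, hpq⟩ := hq.surj (fun i => (hc (a i) : ℂ)) (fun i => Circle.norm_coe _)
    refine ⟨⟨p, hp⟩, ?_⟩
    funext i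
    apply hc.injective
    apply Circle.ext
    rw [hq']
    exact congrFun hpq i
  have hSpaceOpen : IsOpen (space S) := by
    have : space S = (fun p : ℂ × ℂ => p.1) ⁻¹' Sᶜ := rfl
    rw [this]
    exact hS.isOpen_compl.preimage continuous_fst
  have hopen : IsOpenMap q' := by
    intro U hU
    -- the saturation of U is open
    have hsat : IsOpen (⋃ t : ℝ, (fun p => F t p) ⁻¹' U) := by
      refine isOpen_iUnion (fun t => hU.preimage ?_)
      exact hcont.comp (Continuous.prodMk_right t)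
    let W : Set (Fin 3 → ℂ) := (fun a : T3 => fun i => (hc (a i) : ℂ)) '' (q' '' U)
    have hWt : W ⊆ torus := by
      rintro _ ⟨a, _, rfl⟩ i
      exact Circle.norm_coe _
    have hpre : space S ∩ q ⁻¹' W = Subtype.val '' (⋃ t : ℝ, (fun p => F t p) ⁻¹' U) := by
      ext p
      constructor
      · rintro ⟨hp, a, ⟨p', hp', rfl⟩, hpa⟩
        have h1 : q' ⟨p, hp⟩ = q' p' := by
          rw [heq]
          funext i
          have := congrFun hpa i
          simp only at this
          rw [hq'] at this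
          exact this.symm
        obtain ⟨t, ht⟩ := (hfib _ _).1 h1
        refine ⟨⟨p, hp⟩, ?_, rfl⟩
        rw [mem_iUnion]
        refine ⟨t, ?_⟩
        rw [mem_preimage, ht]
        exact hp'
      · rintro ⟨p', hp', rfl⟩
        rw [mem_iUnion] at hp'
        obtain ⟨t, ht⟩ := hp'
        refine ⟨p'.2, ?_⟩
        refine ⟨q' p', ⟨F t p', ht, ((hfib _ _).2 ⟨t, rfl⟩).symm⟩, ?_⟩
        funext i
        exact hq' p' i
    have hopen1 : IsOpen (space S ∩ q ⁻¹' W) := by
      rw [hpre]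
      exact hSpaceOpen.isOpenMap_subtype_val _ hsat
    obtain ⟨V, hV, hWV⟩ := hq.quotient W hWt hopen1
    have : q' '' U = (fun a : T3 => fun i => (hc (a i) : ℂ)) ⁻¹' V := by
      ext a
      have hinj : Function.Injective (fun a : T3 => fun i => (hc (a i) : ℂ)) := by
        intro a b hab
        funext i
        apply hc.injective
        apply Circle.ext
        exact congrFun hab i
      constructor
      · intro ha
        have : (fun i => (hc (a i) : ℂ)) ∈ W := ⟨a, ha, rfl⟩
        rw [hWV] at this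
        exact this.1
      · intro ha
        have : (fun i => (hc (a i) : ℂ)) ∈ W := by
          rw [hWV]
          exact ⟨ha, fun i => Circle.norm_coe _⟩
        obtain ⟨b, hb, hba⟩ := this
        rw [← hinj hba]
        exact hb
    rw [this]
    refine hV.preimage ?_
    exact continuous_pi (fun i => continuous_subtype_val.comp
      (hc.continuous.comp (continuous_apply i)))
  refine ⟨F, q', hS, hcont, hzero, hadd, hqcont, hopen, hsurj, hfib, ?_⟩
  intro p₀ hp₀
  obtain ⟨t0, ht0⟩ := hp₀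
  obtain ⟨ρ, σ, τ, θ, V, hρ, hV, hVS, hσc, hσ, hτ, hθ, hVp⟩ := hFB S φ q hS hφ hq p₀.1 p₀.2
    ⟨t0, fun h => ht0 (Subtype.ext h)⟩
  classical
  let σ' : R3 → N S := fun y => if h : σ y ∈ space S then ⟨σ y, h⟩ else p₀
  have hσ'v : ∀ y ∈ Metric.ball (0 : R3) ρ, (σ' y).1 = σ y := by
    intro y hy
    simp only [σ']
    rw [dif_pos (hσ y hy).1]
  have key : ∀ (p : N S) (y : R3), (∀ i, q p.1 i = q p₀.1 i *
      Complex.exp (2 * Real.pi * Complex.I * y i)) → q' p = q' p₀ + pr y := by
    intro p y h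
    funext i
    apply hc.injective
    apply Circle.ext
    rw [hq', Pi.add_apply, hc_add, hq', h i]
    congr 1
    exact (hc_coe (y i)).symm
  refine ⟨ρ, σ', fun p => τ p.1, fun p => θ p.1, Subtype.val ⁻¹' V, hρ, ?_, ?_, ?_, ?_, ?_, ?_⟩
  · exact continuous_subtype_val.continuousAt.preimage_mem_nhds hV
  · refine (Topology.IsInducing.subtypeVal (t := {p : ℂ × ℂ | p.1 ∉ S})).continuousOn_iff.2 ?_
    exact hσc.congr (fun y hy => hσ'v y hy)
  · intro y hy
    apply key
    intro i
    rw [hσ'v y hy]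
    exact (hσ y hy).2 i
  · exact hτ.comp continuous_subtype_val.continuousOn (fun p hp => hp)
  · exact hθ.comp continuous_subtype_val.continuousOn (fun p hp => hp)
  · intro p hp
    obtain ⟨h1, h2, h3⟩ := hVp p.1 hp
    refine ⟨h1, key p _ h2, ?_⟩
    apply Subtype.ext
    show φ (τ p.1) (σ' (θ p.1)).1 = p.1
    rw [hσ'v _ h1]
    exact h3

end ModD

end Pool.Agent.Helper59_Flow
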