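import Pool.Agent.Helper13_Flow.Trans

set_option autoImplicit false

/-!
Module D, part 4: compactness and assembly.
-/

open Set Topology Filter

namespace Pool.Agent.Helper59_Flow

namespace ModD

variable {S : Set ℂ} {F : ℝ → N S → N S} {q : N S → T3}

/-- chart of a seed -/
noncomputable def chart (hs : Setup S F q) : Good S F q ⊕ Bad S F q → Chart S q
  | .inl G => G.chart hs
  | .inr B => B.chart hs

/-- radius of a seed -/
noncomputable def rad : Good S F q ⊕ Bad S F q → ℝ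
  | .inl G => G.ρ / 2
  | .inr B => B.r

theorem rad_pos (s : Good S F q ⊕ Bad S F q) : 0 < rad s := by
  rcases s with G | B
  · have := G.hρ
    show 0 < G.ρ / 2
    linarith
  · exact B.hr

theorem cov (hs : Setup S F q) (s : Good S F q ⊕ Bad S F q) (v : R3) (hv : ‖v‖ < 2 * rad s) :
    ∃ ξ, (chart hs s).rel ξ = v := by
  rcases s with G | B
  · refine ⟨⟨(v, 0), ?_⟩, rfl⟩
    show v ∈ Metric.ball (0 : R3) G.ρ
    rw [mem_ball_zero_iff]
    have : 2 * (G.ρ / 2) = G.ρ := by ring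
    rw [← this]
    exact hv
  · have hr := B.hr'
    have hv' : ‖v‖ < 2 * B.r := hv
    obtain ⟨p, hp⟩ := hs.qsurj (B.P + pr v)
    have hpB : q p - B.P = pr v := by rw [hp]; abel
    have hmem : p.1 ∈ Metric.ball B.z B.ε := by
      apply B.grab
      rw [hpB]
      exact lt_of_le_of_lt (norm_pr_le _) hv'
    refine ⟨⟨p.1, hmem⟩, ?_⟩
    show SM (q ⟨p.1, _⟩ - B.P) = v
    have : (⟨p.1, B.hball hmem⟩ : N S) = p := rfl
    rw [this, hpB, SM_pr (by linarith)]

theorem tr (hs : Setup S F q) (s s' : Good S F q ⊕ Bad S F q) : ∃ δ, 0 < δ ∧ ∀ y y',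
    ‖y‖ ≤ rad s → ‖y'‖ ≤ rad s' → (chart hs s).P + pr y = (chart hs s').P + pr y' →
      TrL (chart hs s) (chart hs s') y y' δ := by
  rcases s with G | B <;> rcases s' with G' | B'
  · exact tr_good_good hs G G'
  · exact tr_good_bad hs G B'
  · obtain ⟨δ, hδ, h⟩ := tr_good_bad hs G' B
    exact ⟨δ, hδ, fun y y' hy hy' hP => (h y' y hy' hy hP.symm).symm⟩
  · exact tr_bad_bad hs B B'

theorem exists_seed (hs : Setup S F q) (P : T3) :
    ∃ s : Good S F q ⊕ Bad S F q, (chart hs s).P = P := by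
  obtain ⟨p, hp⟩ := hs.qsurj P
  by_cases h : ∃ t, F t p ≠ p
  · obtain ⟨G, hG⟩ := exists_good hs p h
    exact ⟨.inl G, hG.trans hp⟩
  · push Not at h
    obtain ⟨B, hB⟩ := exists_bad hs p h
    exact ⟨.inr B, hB.trans hp⟩

theorem TrL.mono {C C' : Chart S q} {y y' : R3} {δ δ' : ℝ} (h : TrL C C' y y' δ) (hd : δ' ≤ δ) :
    TrL C C' y y' δ' := by
  obtain ⟨Z, i1, i2, a, b, ha, hb, h1, h2, h3, h4⟩ := h
  exact ⟨Z, i1, i2, a, b, ha, hb, h1, h2, fun ξ hξ => h3 ξ (lt_of_lt_of_le hξ hd),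
    fun ξ hξ => h4 ξ (lt_of_lt_of_le hξ hd)⟩

/-- Recentring a chart. -/
noncomputable def recenter (C : Chart S q) (y0 : R3) (P' : T3) (hP : P' = C.P + pr y0) :
    Chart S q where
  X := C.X
  h := C.h
  rel := fun ξ => C.rel ξ - y0
  P := P'
  continuous_h := C.continuous_h
  continuous_rel := C.continuous_rel.sub continuous_const
  hq := by
    intro ξ
    rw [C.hq, hP, pr_sub]
    abel
  contr := C.contr
  cyc := by
    intro y
    have hset : ∀ ξ, C.rel ξ - y0 = y ↔ C.rel ξ = y + y0 := by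
      intro ξ
      exact sub_eq_iff_eq_add
    rcases C.cyc (y + y0) with h | ⟨γ, T, h1, h2, h3, h4, h5⟩
    · left
      have : {ξ | C.rel ξ - y0 = y} = {ξ | C.rel ξ = y + y0} := by
        ext ξ
        exact hset ξ
      rw [this]
      exact h
    · right
      exact ⟨γ, T, h1, fun t => (hset _).2 (h2 t), fun ξ hξ => h3 ξ ((hset ξ).1 hξ), h4, h5⟩

theorem exists_lower {α : Type} (t : Finset α) (f : α → ℝ) (hf : ∀ x, 0 < f x) :
    ∃ c, 0 < c ∧ ∀ x ∈ t, c ≤ f x := by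
  classical
  induction t using Finset.induction_on with
  | empty => exact ⟨1, one_pos, fun x hx => absurd hx (Finset.notMem_empty x)⟩
  | insert a t _ ih =>
    obtain ⟨c, hc, h⟩ := ih
    refine ⟨min c (f a), lt_min hc (hf a), fun x hx => ?_⟩
    rcases Finset.mem_insert.1 hx with rfl | hx
    · exact min_le_right _ _
    · exact (min_le_left _ _).trans (h x hx)

theorem main (hs : Setup S F q) :
    ∃ m : ℕ, 0 < m ∧ ∃ ch : T3 → Chart S q,
      (∀ P, (ch P).P = P) ∧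
      (∀ P y, ‖y‖ ≤ 1 / (m : ℝ) → ∃ ξ, (ch P).rel ξ = y) ∧
      ∀ P k, Trans (ch P) (ch (P + pr (Pi.single k (1 / (m : ℝ))))) (Pi.single k (1 / (m : ℝ)))
        (1 / (m : ℝ)) := by
  have : Fact ((0 : ℝ) < 1) := ⟨one_pos⟩
  choose sd hsd using exists_seed hs
  obtain ⟨t, -, ht⟩ := (isCompact_univ (X := T3)).elim_nhds_subcover
    (fun P => Metric.ball P (rad (sd P) / 2))
    (fun P _ => Metric.ball_mem_nhds P (by have := rad_pos (sd P); linarith))
  have hcov : ∀ P : T3, ∃ x ∈ t, ‖P - x‖ < rad (sd x) / 2 := by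
    intro P
    have := ht (mem_univ P)
    simp only [mem_iUnion, Metric.mem_ball] at this
    obtain ⟨x, hx, hd⟩ := this
    exact ⟨x, hx, by rw [← dist_eq_norm]; exact hd⟩
  choose ι hιt hι using hcov
  choose δ hδ hδt using fun x : T3 × T3 => tr hs (sd x.1) (sd x.2)
  obtain ⟨c1, hc1, hc1'⟩ := exists_lower (t ×ˢ t) δ hδ
  obtain ⟨c2, hc2, hc2'⟩ := exists_lower t (fun x => rad (sd x)) (fun x => rad_pos _)
  obtain ⟨m, hm⟩ := exists_nat_gt (2 / min c1 c2)
  have hmin : 0 < min c1 c2 := lt_min hc1 hc2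
  have hm0 : (0 : ℝ) < m := lt_trans (by positivity) hm
  have hm1 : 2 / (m : ℝ) < min c1 c2 := by
    rw [div_lt_iff₀ hm0]
    rw [div_lt_iff₀ hmin] at hm
    linarith [mul_comm (min c1 c2) (m : ℝ)]
  have h2m : 2 / (m : ℝ) = 1 / m + 1 / m := by ring
  have hm2 : 2 / (m : ℝ) < c1 := lt_of_lt_of_le hm1 (min_le_left _ _)
  have hm3 : 2 / (m : ℝ) < c2 := lt_of_lt_of_le hm1 (min_le_right _ _)
  have hinv : 0 < 1 / (m : ℝ) := by positivity
  -- the charts
  have hPc : ∀ P : T3, P = (chart hs (sd (ι P))).P + pr (SM (P - ι P)) := by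
    intro P
    rw [hsd, pr_SM]
    abel
  refine ⟨m, by exact_mod_cast hm0,
    fun P => recenter (chart hs (sd (ι P))) (SM (P - ι P)) P (hPc P), fun P => rfl, ?_, ?_⟩
  · intro P y hy
    obtain ⟨ξ, hξ⟩ := cov hs (sd (ι P)) (SM (P - ι P) + y) (by
      have h1 : ‖SM (P - ι P)‖ < rad (sd (ι P)) / 2 := by rw [norm_SM]; exact hι P
      have h2 := hc2' _ (hιt P)
      have h3 := rad_pos (sd (ι P))
      calc ‖SM (P - ι P) + y‖ ≤ ‖SM (P - ι P)‖ + ‖y‖ := norm_add_le _ _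
        _ < 2 * rad (sd (ι P)) := by linarith)
    refine ⟨ξ, ?_⟩
    show (chart hs (sd (ι P))).rel ξ - SM (P - ι P) = y
    rw [hξ]
    abel
  · intro P k
    set w : R3 := Pi.single k (1 / (m : ℝ)) with hw
    have hwn : ‖w‖ = 1 / (m : ℝ) := by
      rw [hw, Pi.norm_single, Real.norm_eq_abs, abs_of_pos hinv]
    set P' := P + pr w with hP'
    have htr := hδt (ι P, ι P') (SM (P - ι P) + w) (SM (P' - ι P'))
      (by
        have h1 : ‖SM (P - ι P)‖ < rad (sd (ι P)) / 2 := by rw [norm_SM]; exact hι P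
        have h2 := hc2' _ (hιt P)
        have h2' : c2 ≤ rad (sd (ι P)) := h2
        calc ‖SM (P - ι P) + w‖ ≤ ‖SM (P - ι P)‖ + ‖w‖ := norm_add_le _ _
          _ ≤ rad (sd (ι P)) := by rw [hwn]; linarith)
      (by
        have h1 : ‖SM (P' - ι P')‖ < rad (sd (ι P')) / 2 := by rw [norm_SM]; exact hι P'
        have h3 := rad_pos (sd (ι P'))
        show ‖SM (P' - ι P')‖ ≤ rad (sd (ι P'))
        linarith)
      (by
        show (chart hs (sd (ι P))).P + pr (SM (P - ι P) + w) =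
          (chart hs (sd (ι P'))).P + pr (SM (P' - ι P'))
        rw [← hPc P', pr_add, ← add_assoc, ← hPc P])
    have hδ1 : 2 / (m : ℝ) < δ (ι P, ι P') :=
      lt_of_lt_of_le hm2 (hc1' _ (Finset.mk_mem_product (hιt P) (hιt P')))
    obtain ⟨Z, i1, i2, a, b, ha, hb, h1, h2, h3, h4⟩ := htr
    refine ⟨Z, i1, i2, a, b, ha, hb, h1, ?_, ?_, ?_⟩
    · intro z
      have := h2 z
      show (chart hs (sd (ι P))).rel (a z) - SM (P - ι P) =
        w + ((chart hs (sd (ι P'))).rel (b z) - SM (P' - ι P'))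
      have h2z : (chart hs (sd (ι P))).rel (a z) - (SM (P - ι P) + w) =
        (chart hs (sd (ι P'))).rel (b z) - SM (P' - ι P') := h2 z
      rw [← h2z]
      abel
    · intro ξ hξ
      have hξ' : ‖(chart hs (sd (ι P))).rel ξ - SM (P - ι P)‖ ≤ 1 / (m : ℝ) := hξ
      refine h3 ξ ?_
      show ‖(chart hs (sd (ι P))).rel ξ - (SM (P - ι P) + w)‖ < δ (ι P, ι P')
      have e : (chart hs (sd (ι P))).rel ξ - (SM (P - ι P) + w) =
        ((chart hs (sd (ι P))).rel ξ - SM (P - ι P)) - w := by abel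
      rw [e]
      calc _ ≤ ‖(chart hs (sd (ι P))).rel ξ - SM (P - ι P)‖ + ‖w‖ := norm_sub_le _ _
        _ < δ (ι P, ι P') := by rw [hwn]; linarith
    · intro ξ hξ
      have hξ' : ‖(chart hs (sd (ι P'))).rel ξ - SM (P' - ι P')‖ ≤ 1 / (m : ℝ) := hξ
      refine h4 ξ ?_
      show ‖(chart hs (sd (ι P'))).rel ξ - SM (P' - ι P')‖ < δ (ι P, ι P')
      linarith

end ModD

theorem D : FBStatement → DStatement := by
  intro hFB S φ q hS hφ hq
  obtain ⟨F, q', hs⟩ := ModD.exists_setup hFB S φ q hS hφ hq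
  exact ⟨q', hs.qcont, ModD.main hs⟩

end Pool.Agent.Helper59_Flow
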