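import Pool.Agent.Helper13_Flow.Basic

set_option autoImplicit false

/-!
Module D, part 2: good and bad seeds and their charts.
-/

open Set Topology Filter

namespace Pool.Agent.Helper59_Flow

namespace ModD

/-- Contraction of a convex set. -/
theorem convex_contr {E : Type} [NormedAddCommGroup E] [NormedSpace ℝ E] (s : Set E)
    (hs : Convex ℝ s) (hne : s.Nonempty) :
    ∃ (x0 : s) (c : C(unitInterval × s, s)), (∀ ξ, c (0, ξ) = x0) ∧ (∀ ξ, c (1, ξ) = ξ) := by
  obtain ⟨x0, hx0⟩ := hne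
  let c : unitInterval × s → s := fun x => ⟨(1 - (x.1 : ℝ)) • x0 + (x.1 : ℝ) • (x.2 : E),
    hs hx0 x.2.2 (by have := x.1.2.2; linarith) x.1.2.1 (by ring)⟩
  have hc : Continuous c := by
    refine Continuous.subtype_mk ?_ _
    fun_prop
  refine ⟨⟨x0, hx0⟩, ⟨c, hc⟩, ?_, ?_⟩
  · intro ξ
    apply Subtype.ext
    simp [c]
  · intro ξ
    apply Subtype.ext
    simp [c]

/-- Good seed: a flow box around an orbit of nonfixed points. -/
structure Good (S : Set ℂ) (F : ℝ → N S → N S) (q : N S → T3) where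
  P : T3
  ρ : ℝ
  σ : R3 → N S
  hρ : 0 < ρ
  hρ' : ρ < 1 / 2
  hσ : ContinuousOn σ (Metric.ball 0 ρ)
  hq : ∀ y ∈ Metric.ball (0 : R3) ρ, q (σ y) = P + pr y
  nf : ∀ y ∈ Metric.ball (0 : R3) ρ, ∃ t, F t (σ y) ≠ σ y

/-- Bad seed: a small ball around a fixed point. -/
structure Bad (S : Set ℂ) (F : ℝ → N S → N S) (q : N S → T3) where
  P : T3
  z : ℂ × ℂ
  ε : ℝ
  r : ℝ
  hε : 0 < ε
  hr : 0 < r
  hr' : r ≤ 1 / 16
  hball : Metric.ball z ε ⊆ {p : ℂ × ℂ | p.1 ∉ S}
  small : ∀ p : N S, p.1 ∈ Metric.ball z ε → ‖q p - P‖ < 1 / 8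
  grab : ∀ p : N S, ‖q p - P‖ < 2 * r → p.1 ∈ Metric.ball z ε

variable {S : Set ℂ} {F : ℝ → N S → N S} {q : N S → T3}

theorem period (hs : Setup S F q) (p : N S) (hp : ∃ t, F t p ≠ p) :
    ∃ T : ℝ, ∀ t, F t p = p ↔ ∃ n : ℤ, t = n * T := by
  let H : AddSubgroup ℝ :=
    { carrier := {t | F t p = p}
      zero_mem' := hs.zero p
      add_mem' := by
        intro a b ha hb
        show F (a + b) p = p
        rw [hs.add, show F b p = p from hb, show F a p = p from ha]
      neg_mem' := by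
        intro a ha
        show F (-a) p = p
        have h1 : F (-a + a) p = F (-a) (F a p) := hs.add _ _ _
        rw [neg_add_cancel, hs.zero, show F a p = p from ha] at h1
        exact h1.symm }
  have hcl : IsClosed (H : Set ℝ) := by
    have : (H : Set ℝ) = {t | F t p = p} := rfl
    rw [this]
    exact isClosed_eq (hs.cont.comp (Continuous.prodMk_left p)) continuous_const
  rcases AddSubgroup.dense_or_cyclic H with h | ⟨a, ha⟩
  · exfalso
    obtain ⟨t, ht⟩ := hp
    apply ht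
    have : (H : Set ℝ) = univ := by rw [← hcl.closure_eq]; exact h.closure_eq
    have h2 : t ∈ (H : Set ℝ) := by rw [this]; exact mem_univ t
    exact h2
  · refine ⟨a, fun t => ?_⟩
    have h1 : F t p = p ↔ t ∈ H := Iff.rfl
    rw [h1, ha, AddSubgroup.mem_closure_singleton]
    constructor
    · rintro ⟨n, hn⟩
      exact ⟨n, by rw [← hn]; simp⟩
    · rintro ⟨n, hn⟩
      exact ⟨n, by rw [hn]; simp⟩

/-- underlying set of a good chart -/
def GX (ρ : ℝ) : Set (R3 × ℝ) := {x | x.1 ∈ Metric.ball (0 : R3) ρ}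

theorem convex_GX (ρ : ℝ) : Convex ℝ (GX ρ) := by
  have : GX ρ = (LinearMap.fst ℝ R3 ℝ) ⁻¹' (Metric.ball (0 : R3) ρ) := rfl
  rw [this]
  exact (convex_ball (0 : R3) ρ).linear_preimage _

/-- The chart of a good seed. -/
noncomputable def Good.chart (G : Good S F q) (hs : Setup S F q) : Chart S q where
  X := GX G.ρ
  h := fun x => F x.1.2 (G.σ x.1.1)
  rel := fun x => x.1.1
  P := G.P
  continuous_h := by
    have h1 : Continuous (fun x : GX G.ρ => G.σ x.1.1) :=
      G.hσ.comp_continuous (by fun_prop) (fun x => x.2)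
    exact hs.cont.comp ((continuous_snd.comp continuous_subtype_val).prodMk h1)
  continuous_rel := by fun_prop
  hq := by
    intro x
    rw [← G.hq x.1.1 x.2]
    exact ((hs.fibre _ _).2 ⟨x.1.2, rfl⟩).symm
  contr := convex_contr (GX G.ρ) (convex_GX G.ρ) ⟨(0, 0), by
    show (0 : R3) ∈ Metric.ball (0 : R3) G.ρ
    exact Metric.mem_ball_self G.hρ⟩
  cyc := by
    intro y
    by_cases hy : y ∈ Metric.ball (0 : R3) G.ρ
    · right
      obtain ⟨T, hT⟩ := period hs (G.σ y) (G.nf y hy)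
      refine ⟨fun t => ⟨(y, t), hy⟩, T, ?_, fun t => rfl, ?_, ?_, ?_⟩
      · exact Continuous.subtype_mk (by fun_prop) _
      · rintro ⟨⟨a, t⟩, ha⟩ hξ
        have : a = y := hξ
        subst this
        exact ⟨t, rfl⟩
      · intro t
        show F (t + T) (G.σ y) = F t (G.σ y)
        rw [hs.add, (hT T).2 ⟨1, by simp⟩]
      · intro t t' h
        have h' : F t (G.σ y) = F t' (G.σ y) := h
        have h1 : F (t' - t) (G.σ y) = G.σ y := by
          have e1 : F (-t + t') (G.σ y) = F (-t) (F t' (G.σ y)) := hs.add _ _ _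
          have e2 : F (-t + t) (G.σ y) = F (-t) (F t (G.σ y)) := hs.add _ _ _
          rw [neg_add_cancel, hs.zero] at e2
          rw [show t' - t = -t + t' by ring, e1, ← h', ← e2]
        obtain ⟨n, hn⟩ := (hT _).1 h1
        exact ⟨n, by linarith⟩
    · left
      rintro ⟨⟨a, t⟩, ha⟩ hξ
      exfalso
      have : a = y := hξ
      subst this
      exact hy ha

/-- The chart of a bad seed. -/
noncomputable def Bad.chart (B : Bad S F q) (hs : Setup S F q) : Chart S q where
  X := Metric.ball B.z B.ε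
  h := fun x => ⟨x.1, B.hball x.2⟩
  rel := fun x => SM (q ⟨x.1, B.hball x.2⟩ - B.P)
  P := B.P
  continuous_h := Continuous.subtype_mk continuous_subtype_val _
  continuous_rel := by
    have h1 : Continuous (fun x : Metric.ball B.z B.ε => q ⟨x.1, B.hball x.2⟩ - B.P) :=
      (hs.qcont.comp (Continuous.subtype_mk continuous_subtype_val _)).sub continuous_const
    refine continuousOn_SM.comp_continuous h1 (fun x => ?_)
    have := B.small ⟨x.1, B.hball x.2⟩ x.2
    simp only [mem_ofPred_eq]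
    linarith
  hq := by
    intro x
    rw [pr_SM]
    abel
  contr := convex_contr _ (convex_ball B.z B.ε) ⟨B.z, Metric.mem_ball_self B.hε⟩
  cyc := by
    intro y
    left
    intro x _ x' _ h
    apply Subtype.ext
    exact congrArg (fun p : N S => p.1) h

/-! ### existence -/

theorem isOpen_nonfixed (hs : Setup S F q) : IsOpen {p : N S | ∃ t, F t p ≠ p} := by
  have : {p : N S | ∃ t, F t p ≠ p} = ⋃ t : ℝ, {p : N S | F t p = p}ᶜ := by
    ext p
    simp
  rw [this]
  refine isOpen_iUnion (fun t => ?_)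
  exact (isClosed_eq (hs.cont.comp (Continuous.prodMk_right t)) continuous_id).isOpen_compl

theorem exists_good (hs : Setup S F q) (p : N S) (hp : ∃ t, F t p ≠ p) :
    ∃ G : Good S F q, G.P = q p := by
  obtain ⟨ρ, σ, τ, θ, V, hρ, hV, hσ, hqσ, -⟩ := hs.fb p hp
  have h0 : ∃ t, F t (σ 0) ≠ σ 0 := by
    by_contra hcon
    push Not at hcon
    have h1 : q p = q (σ 0) := by
      rw [hqσ 0 (Metric.mem_ball_self hρ), pr_zero, add_zero]
    obtain ⟨t, ht⟩ := (hs.fibre _ _).1 h1
    have h2 : p = σ 0 := by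
      have e2 : F (-t + t) p = F (-t) (F t p) := hs.add _ _ _
      rw [neg_add_cancel, hs.zero, ht, hcon] at e2
      exact e2
    obtain ⟨t', ht'⟩ := hp
    rw [h2] at ht'
    exact ht' (hcon t')
  have hc0 : ContinuousAt σ 0 := hσ.continuousAt (Metric.ball_mem_nhds 0 hρ)
  have hev : ∀ᶠ y in 𝓝 (0 : R3), ∃ t, F t (σ y) ≠ σ y :=
    hc0.eventually ((isOpen_nonfixed hs).mem_nhds h0)
  obtain ⟨ρ1, hρ1, hρ1'⟩ := Metric.eventually_nhds_iff_ball.1 hev
  have hle1 : min (min ρ ρ1) (1 / 4) ≤ ρ := (min_le_left _ _).trans (min_le_left _ _)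
  have hle2 : min (min ρ ρ1) (1 / 4) ≤ ρ1 := (min_le_left _ _).trans (min_le_right _ _)
  refine ⟨⟨q p, min (min ρ ρ1) (1 / 4), σ, lt_min (lt_min hρ hρ1) (by norm_num),
    lt_of_le_of_lt (min_le_right _ _) (by norm_num), hσ.mono (Metric.ball_subset_ball hle1),
    fun y hy => hqσ y (Metric.ball_subset_ball hle1 hy),
    fun y hy => hρ1' y (Metric.ball_subset_ball hle2 hy)⟩, rfl⟩

theorem exists_bad (hs : Setup S F q) (z : N S) (hz : ∀ t, F t z = z) :
    ∃ B : Bad S F q, B.P = q z := by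
  have hO : IsOpen {p : ℂ × ℂ | p.1 ∉ S} := hs.isClosed.isOpen_compl.preimage continuous_fst
  obtain ⟨ε1, hε1, hb1⟩ := Metric.isOpen_iff.1 hO z.1 z.2
  obtain ⟨ε2, hε2, hb2⟩ := Metric.continuous_iff.1 hs.qcont z (1 / 8) (by norm_num)
  obtain ⟨ε, hε, hlt1, hlt2⟩ : ∃ ε, 0 < ε ∧ ε < ε1 ∧ ε < ε2 := by
    refine ⟨min ε1 ε2 / 2, by have := lt_min hε1 hε2; linarith, ?_, ?_⟩
    · have := min_le_left ε1 ε2
      linarith
    · have := min_le_right ε1 ε2
      linarith
  have hdist : ∀ p : N S, dist p z = dist p.1 z.1 := fun p => rfl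
  let U : Set (N S) := {p | dist p.1 z.1 < ε}
  let K : Set (N S) := {p | dist p.1 z.1 = ε}
  have hU : IsOpen U := isOpen_lt (by fun_prop) continuous_const
  have hK : IsCompact K := by
    refine (Topology.IsInducing.subtypeVal (t := {p : ℂ × ℂ | p.1 ∉ S})).isCompact_iff.2 ?_
    have : Subtype.val '' K = Metric.sphere z.1 ε := by
      ext p
      constructor
      · rintro ⟨p', hp', rfl⟩
        exact hp'
      · intro hp
        refine ⟨⟨p, hb1 ?_⟩, hp, rfl⟩
        rw [Metric.mem_ball]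
        rw [Metric.mem_sphere] at hp
        linarith
    have h2 : IsCompact (Metric.sphere z.1 ε) := isCompact_sphere _ _
    rw [← this] at h2
    exact h2
  have hW : IsOpen (q '' U \ q '' K) := (hs.qopen U hU).sdiff (hK.image hs.qcont).isClosed
  have hzW : q z ∈ q '' U \ q '' K := by
    refine ⟨⟨z, by simpa [U] using hε, rfl⟩, ?_⟩
    rintro ⟨p, hp, hpz⟩
    obtain ⟨t, ht⟩ := (hs.fibre _ _).1 hpz.symm
    rw [hz t] at ht
    have : dist p.1 z.1 = ε := hp
    rw [← ht, dist_self] at this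
    linarith
  obtain ⟨r, hr, hrW⟩ := Metric.isOpen_iff.1 hW (q z) hzW
  refine ⟨⟨q z, z.1, ε, min (r / 2) (1 / 16), hε, lt_min (by linarith) (by norm_num),
    min_le_right _ _, ?_, ?_, ?_⟩, rfl⟩
  · intro p hp
    apply hb1
    rw [Metric.mem_ball] at hp ⊢
    linarith
  · intro p hp
    rw [← dist_eq_norm]
    apply hb2
    rw [hdist]
    rw [Metric.mem_ball] at hp
    linarith
  · intro p hp
    have hpW : q p ∈ q '' U \ q '' K := by
      apply hrW
      rw [Metric.mem_ball, dist_eq_norm]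
      refine lt_of_lt_of_le hp ?_
      have := min_le_left (r / 2) (1 / 16)
      linarith
    obtain ⟨⟨u, hu, hup⟩, hnK⟩ := hpW
    obtain ⟨t, ht⟩ := (hs.fibre _ _).1 hup
    by_contra hcon
    rw [Metric.mem_ball, not_lt] at hcon
    -- intermediate value theorem
    have hcont : Continuous (fun s : ℝ => dist (F s u).1 z.1) := by
      have := hs.cont.comp (Continuous.prodMk_left u)
      exact (continuous_subtype_val.comp this).dist continuous_const
    have h0 : dist (F 0 u).1 z.1 < ε := by rw [hs.zero]; exact hu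
    have h1 : ε ≤ dist (F t u).1 z.1 := by rw [ht]; exact hcon
    have hmem : ε ∈ Set.range (fun s : ℝ => dist (F s u).1 z.1) :=
      mem_range_of_exists_le_of_exists_ge hcont ⟨0, h0.le⟩ ⟨t, h1⟩
    obtain ⟨s, hs'⟩ := hmem
    apply hnK
    refine ⟨F s u, hs', ?_⟩
    rw [← hup]
    exact ((hs.fibre _ _).2 ⟨s, rfl⟩).symm

end ModD

end Pool.Agent.Helper59_Flow
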