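import Pool.Agent.Helper13_Flow.Seeds

set_option autoImplicit false

/-!
Module D, part 3: transitions between the charts of two seeds.
-/

open Set Topology Filter

namespace Pool.Agent.Helper59_Flow

namespace ModD

variable {S : Set ℂ} {F : ℝ → N S → N S} {q : N S → T3}

/-- Local compatibility of two charts around `rel = y` and `rel' = y'`. -/
def TrL (C C' : Chart S q) (y y' : R3) (δ : ℝ) : Prop :=
  ∃ (Z : Type) (_ : TopologicalSpace Z) (_ : PreconnectedSpace Z) (a : Z → C.X) (b : Z → C'.X),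
    Continuous a ∧ Continuous b ∧ (∀ z, C.h (a z) = C'.h (b z)) ∧
    (∀ z, C.rel (a z) - y = C'.rel (b z) - y') ∧
    (∀ ξ, ‖C.rel ξ - y‖ < δ → ∃ z, a z = ξ) ∧ (∀ ξ, ‖C'.rel ξ - y'‖ < δ → ∃ z, b z = ξ)

theorem TrL.symm {C C' : Chart S q} {y y' : R3} {δ : ℝ} (h : TrL C C' y y' δ) :
    TrL C' C y' y δ := by
  obtain ⟨Z, i1, i2, a, b, ha, hb, h1, h2, h3, h4⟩ := h
  exact ⟨Z, i1, i2, b, a, hb, ha, fun z => (h1 z).symm, fun z => (h2 z).symm, h4, h3⟩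

/-- Transition time function between two good seeds. -/
def HT (A B : Good S F q) (y y' : R3) (δ : ℝ) : Prop :=
  ∃ τ : R3 → ℝ, ContinuousOn τ (Metric.ball 0 δ) ∧
    ∀ u ∈ Metric.ball (0 : R3) δ, F (τ u) (A.σ (y + u)) = B.σ (y' + u)

theorem HT.shift {A B : Good S F q} {y y' : R3} {δ : ℝ} (h : HT A B y y' δ) (w : R3) (δ' : ℝ)
    (hw : ‖w‖ + δ' ≤ δ) : HT A B (y + w) (y' + w) δ' := by
  obtain ⟨τ, hτ, h1⟩ := h
  have hm : ∀ u ∈ Metric.ball (0 : R3) δ', w + u ∈ Metric.ball (0 : R3) δ := by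
    intro u hu
    rw [mem_ball_zero_iff] at hu ⊢
    calc ‖w + u‖ ≤ ‖w‖ + ‖u‖ := norm_add_le _ _
      _ < δ := by linarith
  refine ⟨fun u => τ (w + u), ?_, ?_⟩
  · exact hτ.comp (Continuous.continuousOn (by fun_prop)) hm
  · intro u hu
    have := h1 (w + u) (hm u hu)
    rw [add_assoc, add_assoc]
    exact this

theorem HT_local (hs : Setup S F q) (A B : Good S F q) (y y' : R3)
    (hy : y ∈ Metric.ball (0 : R3) A.ρ) (hy' : y' ∈ Metric.ball (0 : R3) B.ρ)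
    (hP : A.P + pr y = B.P + pr y') : ∃ δ, 0 < δ ∧ HT A B y y' δ := by
  obtain ⟨ρ', σ', τ', θ', V, hρ', hV, hσ', hq', hτ', hθ', hVp⟩ := hs.fb (A.σ y) (A.nf y hy)
  have hqq : q (A.σ y) = q (B.σ y') := by rw [A.hq y hy, B.hq y' hy', hP]
  obtain ⟨t0, ht0⟩ := (hs.fibre _ _).1 hqq
  -- the two maps
  let p1 : R3 → N S := fun u => A.σ (y + u)
  let p2 : R3 → N S := fun u => F (-t0) (B.σ (y' + u))
  have hF : ∀ t, Continuous (F t) := fun t => hs.cont.comp (Continuous.prodMk_right t)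
  -- radius on which things stay in the balls
  obtain ⟨δ0, hδ0, hA0, hB0⟩ : ∃ δ0 > 0, (∀ u ∈ Metric.ball (0 : R3) δ0, y + u ∈ Metric.ball (0 : R3) A.ρ) ∧
      (∀ u ∈ Metric.ball (0 : R3) δ0, y' + u ∈ Metric.ball (0 : R3) B.ρ) := by
    rw [mem_ball_zero_iff] at hy hy'
    refine ⟨min (A.ρ - ‖y‖) (B.ρ - ‖y'‖), lt_min (by linarith) (by linarith), ?_, ?_⟩
    · intro u hu
      rw [mem_ball_zero_iff] at hu ⊢
      have h1 := lt_of_lt_of_le hu (min_le_left _ _)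
      calc ‖y + u‖ ≤ ‖y‖ + ‖u‖ := norm_add_le _ _
        _ < A.ρ := by linarith
    · intro u hu
      rw [mem_ball_zero_iff] at hu ⊢
      have h1 := lt_of_lt_of_le hu (min_le_right _ _)
      calc ‖y' + u‖ ≤ ‖y'‖ + ‖u‖ := norm_add_le _ _
        _ < B.ρ := by linarith
  have hc1 : ContinuousOn p1 (Metric.ball 0 δ0) :=
    A.hσ.comp (Continuous.continuousOn (by fun_prop)) hA0
  have hc2 : ContinuousOn p2 (Metric.ball 0 δ0) :=
    (hF _).comp_continuousOn (B.hσ.comp (Continuous.continuousOn (by fun_prop)) hB0)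
  have h10 : p1 0 = A.σ y := by simp [p1]
  have h20 : p2 0 = A.σ y := by
    simp only [p2, add_zero]
    rw [← ht0, ← hs.add, neg_add_cancel, hs.zero]
  have hat1 : ContinuousAt p1 0 := hc1.continuousAt (Metric.ball_mem_nhds 0 hδ0)
  have hat2 : ContinuousAt p2 0 := hc2.continuousAt (Metric.ball_mem_nhds 0 hδ0)
  have hθat : ContinuousAt θ' (A.σ y) := hθ'.continuousAt hV
  -- neighbourhood where θ' is within 1/2 of its value
  have hV2 : {p | p ∈ V ∧ dist (θ' p) (θ' (A.σ y)) < 1 / 2} ∈ 𝓝 (A.σ y) := by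
    refine inter_mem hV ?_
    exact hθat (Metric.ball_mem_nhds _ (by norm_num))
  have he1 : ∀ᶠ u in 𝓝 (0 : R3), p1 u ∈ {p | p ∈ V ∧ dist (θ' p) (θ' (A.σ y)) < 1 / 2} := by
    have : Tendsto p1 (𝓝 0) (𝓝 (A.σ y)) := by rw [← h10]; exact hat1
    exact this hV2
  have he2 : ∀ᶠ u in 𝓝 (0 : R3), p2 u ∈ {p | p ∈ V ∧ dist (θ' p) (θ' (A.σ y)) < 1 / 2} := by
    have : Tendsto p2 (𝓝 0) (𝓝 (A.σ y)) := by rw [← h20]; exact hat2
    exact this hV2
  obtain ⟨δ1, hδ1, hb⟩ := Metric.eventually_nhds_iff_ball.1 (he1.and he2)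
  refine ⟨min δ0 δ1, lt_min hδ0 hδ1, fun u => t0 + τ' (p2 u) - τ' (p1 u), ?_, ?_⟩
  · have hsub0 : Metric.ball (0 : R3) (min δ0 δ1) ⊆ Metric.ball 0 δ0 :=
      Metric.ball_subset_ball (min_le_left _ _)
    have hsub1 : Metric.ball (0 : R3) (min δ0 δ1) ⊆ Metric.ball 0 δ1 :=
      Metric.ball_subset_ball (min_le_right _ _)
    have k1 : ContinuousOn (fun u => τ' (p1 u)) (Metric.ball (0 : R3) (min δ0 δ1)) :=
      hτ'.comp (hc1.mono hsub0) (fun u hu => (hb u (hsub1 hu)).1.1)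
    have k2 : ContinuousOn (fun u => τ' (p2 u)) (Metric.ball (0 : R3) (min δ0 δ1)) :=
      hτ'.comp (hc2.mono hsub0) (fun u hu => (hb u (hsub1 hu)).2.1)
    exact (continuousOn_const.add k2).sub k1
  · intro u hu
    have hu0 : u ∈ Metric.ball (0 : R3) δ0 := Metric.ball_subset_ball (min_le_left _ _) hu
    have hu1 : u ∈ Metric.ball (0 : R3) δ1 := Metric.ball_subset_ball (min_le_right _ _) hu
    obtain ⟨⟨hv1, hd1⟩, ⟨hv2, hd2⟩⟩ := hb u hu1
    obtain ⟨-, hq1, hF1⟩ := hVp _ hv1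
    obtain ⟨-, hq2, hF2⟩ := hVp _ hv2
    have hqe : q (p1 u) = q (p2 u) := by
      have e1 : q (p1 u) = A.P + pr (y + u) := A.hq _ (hA0 u hu0)
      have e2 : q (p2 u) = B.P + pr (y' + u) := by
        rw [← B.hq _ (hB0 u hu0)]
        exact ((hs.fibre _ _).2 ⟨_, rfl⟩).symm
      rw [e1, e2, pr_add, pr_add, ← add_assoc, ← add_assoc, hP]
    have hθe : θ' (p1 u) = θ' (p2 u) := by
      refine eq_of_pr_eq ?_ ?_
      · rw [hq1, hq2] at hqe
        exact add_left_cancel hqe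
      · rw [← dist_eq_norm]
        calc dist (θ' (p1 u)) (θ' (p2 u)) ≤ dist (θ' (p1 u)) (θ' (A.σ y)) +
            dist (θ' (A.σ y)) (θ' (p2 u)) := dist_triangle _ _ _
          _ < 1 := by rw [dist_comm (θ' (A.σ y))]; linarith
    have hw : σ' (θ' (p1 u)) = F (-(τ' (p1 u))) (p1 u) := by
      nth_rewrite 3 [← hF1]
      rw [← hs.add, neg_add_cancel, hs.zero]
    have hp2 : F (t0) (p2 u) = B.σ (y' + u) := by
      simp only [p2]
      rw [← hs.add, add_neg_cancel, hs.zero]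
    have hp2' : F (τ' (p2 u) + -τ' (p1 u)) (p1 u) = p2 u := by
      rw [hs.add, ← hw, hθe, hF2]
    show F (t0 + τ' (p2 u) - τ' (p1 u)) (p1 u) = B.σ (y' + u)
    calc F (t0 + τ' (p2 u) - τ' (p1 u)) (p1 u)
        = F t0 (F (τ' (p2 u) + -τ' (p1 u)) (p1 u)) := by
          rw [← hs.add]
          congr 1
          ring
      _ = F t0 (p2 u) := congrArg (F t0) hp2'
      _ = B.σ (y' + u) := hp2

theorem HT_uniform (hs : Setup S F q) (A B : Good S F q) : ∃ δ, 0 < δ ∧ ∀ y y',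
    ‖y‖ ≤ A.ρ / 2 → ‖y'‖ ≤ B.ρ / 2 → A.P + pr y = B.P + pr y' → HT A B y y' δ := by
  let K : Set (R3 × R3) := {x | ‖x.1‖ ≤ A.ρ / 2 ∧ ‖x.2‖ ≤ B.ρ / 2 ∧ A.P + pr x.1 = B.P + pr x.2}
  have hKc : IsCompact K := by
    have h1 : IsCompact (Metric.closedBall (0 : R3) (A.ρ / 2) ×ˢ Metric.closedBall (0 : R3) (B.ρ / 2)) :=
      (isCompact_closedBall _ _).prod (isCompact_closedBall _ _)
    have h2 : K = (Metric.closedBall (0 : R3) (A.ρ / 2) ×ˢ Metric.closedBall (0 : R3) (B.ρ / 2)) ∩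
        {x | A.P + pr x.1 = B.P + pr x.2} := by
      ext x
      simp only [K, mem_ofPred_eq, mem_inter_iff, mem_prod, mem_closedBall_zero_iff]
      tauto
    rw [h2]
    refine h1.inter_right ?_
    exact isClosed_eq (continuous_const.add (continuous_pr.comp continuous_fst))
      (continuous_const.add (continuous_pr.comp continuous_snd))
  have key : ∃ δ, 0 < δ ∧ ∀ x ∈ K, HT A B x.1 x.2 δ := by
    refine hKc.induction_on (p := fun s => ∃ δ, 0 < δ ∧ ∀ x ∈ s, HT A B x.1 x.2 δ)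
      ⟨1, one_pos, fun x hx => hx.elim⟩ ?_ ?_ ?_
    · rintro s t hst ⟨δ, hδ, h⟩
      exact ⟨δ, hδ, fun x hx => h x (hst hx)⟩
    · rintro s t ⟨δ, hδ, h⟩ ⟨δ', hδ', h'⟩
      refine ⟨min δ δ', lt_min hδ hδ', fun x hx => ?_⟩
      have hz : ∀ x : R3 × R3, HT A B x.1 x.2 (min δ δ') → HT A B x.1 x.2 (min δ δ') := fun _ h => h
      rcases hx with hx | hx
      · have := (h x hx).shift 0 (min δ δ') (by rw [norm_zero, zero_add]; exact min_le_left _ _)
        rwa [add_zero, add_zero] at this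
      · have := (h' x hx).shift 0 (min δ δ') (by rw [norm_zero, zero_add]; exact min_le_right _ _)
        rwa [add_zero, add_zero] at this
    · intro x hx
      obtain ⟨h1, h2, h3⟩ := hx
      have hA := A.hρ
      have hB := B.hρ
      obtain ⟨δ, hδ, hHT⟩ := HT_local hs A B x.1 x.2
        (by rw [mem_ball_zero_iff]; linarith) (by rw [mem_ball_zero_iff]; linarith) h3
      refine ⟨K ∩ Metric.ball x (min (δ / 2) (1 / 4)), inter_mem self_mem_nhdsWithin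
        (mem_nhdsWithin_of_mem_nhds (Metric.ball_mem_nhds _ (lt_min (by linarith) (by norm_num)))),
        δ / 2, by linarith, ?_⟩
      rintro x' ⟨⟨h1', h2', h3'⟩, hx'⟩
      rw [Metric.mem_ball, Prod.dist_eq, max_lt_iff, dist_eq_norm, dist_eq_norm] at hx'
      obtain ⟨hd1, hd2⟩ := hx'
      have hw : x'.1 - x.1 = x'.2 - x.2 := by
        refine eq_of_pr_eq ?_ ?_
        · rw [pr_sub, pr_sub]
          have : pr x'.1 - pr x.1 = (A.P + pr x'.1) - (A.P + pr x.1) := by abel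
          rw [this, h3, h3']
          abel
        · calc ‖x'.1 - x.1 - (x'.2 - x.2)‖ ≤ ‖x'.1 - x.1‖ + ‖x'.2 - x.2‖ := norm_sub_le _ _
            _ < 1 := by
              have e1 := lt_of_lt_of_le hd1 (min_le_right _ _)
              have e2 := lt_of_lt_of_le hd2 (min_le_right _ _)
              linarith
      have := hHT.shift (x'.1 - x.1) (δ / 2) (by
        have e1 := lt_of_lt_of_le hd1 (min_le_left _ _)
        linarith)
      have e3 : x.1 + (x'.1 - x.1) = x'.1 := by abel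
      have e4 : x.2 + (x'.1 - x.1) = x'.2 := by rw [hw]; abel
      rwa [e3, e4] at this
  obtain ⟨δ, hδ, h⟩ := key
  exact ⟨δ, hδ, fun y y' hy hy' hP => h (y, y') ⟨hy, hy', hP⟩⟩

theorem preconn_GX (δ : ℝ) : PreconnectedSpace (GX δ) :=
  Subtype.preconnectedSpace (convex_GX δ).isPreconnected

theorem tr_good_good (hs : Setup S F q) (A B : Good S F q) : ∃ δ, 0 < δ ∧ ∀ y y',
    ‖y‖ ≤ A.ρ / 2 → ‖y'‖ ≤ B.ρ / 2 → A.P + pr y = B.P + pr y' →
      TrL (A.chart hs) (B.chart hs) y y' δ := by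
  obtain ⟨δ0, hδ0, h0⟩ := HT_uniform hs A B
  have hA := A.hρ
  have hB := B.hρ
  refine ⟨min δ0 (min (A.ρ / 2) (B.ρ / 2)), lt_min hδ0 (lt_min (by linarith) (by linarith)), ?_⟩
  intro y y' hy hy' hP
  set δ := min δ0 (min (A.ρ / 2) (B.ρ / 2)) with hδ
  have hd0 : δ ≤ δ0 := min_le_left _ _
  have hdA : δ ≤ A.ρ / 2 := (min_le_right _ _).trans (min_le_left _ _)
  have hdB : δ ≤ B.ρ / 2 := (min_le_right _ _).trans (min_le_right _ _)
  have hHT := (h0 y y' hy hy' hP).shift 0 δ (by rw [norm_zero, zero_add]; exact hd0)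
  rw [add_zero, add_zero] at hHT
  obtain ⟨τ, hτ, hF⟩ := hHT
  have mA : ∀ u ∈ Metric.ball (0 : R3) δ, y + u ∈ Metric.ball (0 : R3) A.ρ := by
    intro u hu
    rw [mem_ball_zero_iff] at hu ⊢
    calc ‖y + u‖ ≤ ‖y‖ + ‖u‖ := norm_add_le _ _
      _ < A.ρ := by linarith
  have mB : ∀ u ∈ Metric.ball (0 : R3) δ, y' + u ∈ Metric.ball (0 : R3) B.ρ := by
    intro u hu
    rw [mem_ball_zero_iff] at hu ⊢
    calc ‖y' + u‖ ≤ ‖y'‖ + ‖u‖ := norm_add_le _ _
      _ < B.ρ := by linarith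
  have hτc : Continuous (fun z : GX δ => τ z.1.1) :=
    hτ.comp_continuous (by fun_prop) (fun z => z.2)
  refine ⟨GX δ, inferInstance, preconn_GX δ, fun z => ⟨(y + z.1.1, z.1.2), mA _ z.2⟩,
    fun z => ⟨(y' + z.1.1, z.1.2 - τ z.1.1), mB _ z.2⟩, ?_, ?_, ?_, ?_, ?_, ?_⟩
  · exact Continuous.subtype_mk (by fun_prop) _
  · refine Continuous.subtype_mk ?_ _
    exact Continuous.prodMk (by fun_prop) ((continuous_snd.comp continuous_subtype_val).sub hτc)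
  · intro z
    show F z.1.2 (A.σ (y + z.1.1)) = F (z.1.2 - τ z.1.1) (B.σ (y' + z.1.1))
    rw [← hF _ z.2, ← hs.add]
    congr 1
    ring
  · intro z
    show y + z.1.1 - y = y' + z.1.1 - y'
    abel
  · rintro ⟨⟨v, t⟩, hv⟩ hξ
    have hξ' : ‖v - y‖ < δ := hξ
    refine ⟨⟨(v - y, t), ?_⟩, ?_⟩
    · show v - y ∈ Metric.ball (0 : R3) δ
      rwa [mem_ball_zero_iff]
    · apply Subtype.ext
      show (y + (v - y), t) = (v, t)
      rw [add_sub_cancel]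
  · rintro ⟨⟨v, t⟩, hv⟩ hξ
    have hξ' : ‖v - y'‖ < δ := hξ
    refine ⟨⟨(v - y', t + τ (v - y')), ?_⟩, ?_⟩
    · show v - y' ∈ Metric.ball (0 : R3) δ
      rwa [mem_ball_zero_iff]
    · apply Subtype.ext
      show (y' + (v - y'), t + τ (v - y') - τ (v - y')) = (v, t)
      rw [add_sub_cancel, add_sub_cancel_right]

theorem tr_bad_bad (hs : Setup S F q) (A B : Bad S F q) : ∃ δ, 0 < δ ∧ ∀ y y',
    ‖y‖ ≤ A.r → ‖y'‖ ≤ B.r → A.P + pr y = B.P + pr y' →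
      TrL (A.chart hs) (B.chart hs) y y' δ := by
  refine ⟨min A.r B.r, lt_min A.hr B.hr, ?_⟩
  intro y y' hy hy' hP
  have hA' := A.hr'
  have hB' := B.hr'
  have hconv : Convex ℝ (Metric.ball A.z A.ε ∩ Metric.ball B.z B.ε) :=
    (convex_ball _ _).inter (convex_ball _ _)
  have hqA : ∀ p : N S, pr (SM (q p - A.P) - y) = q p - A.P - pr y := by
    intro p
    rw [pr_sub, pr_SM]
  have hqB : ∀ p : N S, pr (SM (q p - B.P) - y') = q p - B.P - pr y' := by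
    intro p
    rw [pr_sub, pr_SM]
  have hqAB : ∀ p : N S, q p - A.P - pr y = q p - B.P - pr y' := by
    intro p
    have : q p - A.P - pr y = q p - (A.P + pr y) := by abel
    rw [this, hP]
    abel
  refine ⟨(Metric.ball A.z A.ε ∩ Metric.ball B.z B.ε : Set (ℂ × ℂ)), inferInstance,
    Subtype.preconnectedSpace hconv.isPreconnected, fun z => ⟨z.1, z.2.1⟩, fun z => ⟨z.1, z.2.2⟩,
    ?_, ?_, ?_, ?_, ?_, ?_⟩
  · exact Continuous.subtype_mk continuous_subtype_val _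
  · exact Continuous.subtype_mk continuous_subtype_val _
  · intro z
    rfl
  · rintro ⟨z, hzA, hzB⟩
    have hz : z.1 ∉ S := A.hball hzA
    show SM (q ⟨z, hz⟩ - A.P) - y = SM (q ⟨z, hz⟩ - B.P) - y'
    refine eq_of_pr_eq ?_ ?_
    · rw [hqA, hqB, hqAB]
    · have e1 : ‖SM (q ⟨z, hz⟩ - A.P)‖ < 1 / 8 := by rw [norm_SM]; exact A.small ⟨z, hz⟩ hzA
      have e2 : ‖SM (q ⟨z, hz⟩ - B.P)‖ < 1 / 8 := by rw [norm_SM]; exact B.small ⟨z, hz⟩ hzB
      calc _ ≤ ‖SM (q ⟨z, hz⟩ - A.P) - y‖ + ‖SM (q ⟨z, hz⟩ - B.P) - y'‖ := norm_sub_le _ _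
        _ ≤ (‖SM (q ⟨z, hz⟩ - A.P)‖ + ‖y‖) + (‖SM (q ⟨z, hz⟩ - B.P)‖ + ‖y'‖) :=
          add_le_add (norm_sub_le _ _) (norm_sub_le _ _)
        _ < 1 := by linarith
  · rintro ⟨z, hzA⟩ hξ
    have hz : z.1 ∉ S := A.hball hzA
    have hξ' : ‖SM (q ⟨z, hz⟩ - A.P) - y‖ < min A.r B.r := hξ
    have hzB : z ∈ Metric.ball B.z B.ε := by
      apply B.grab ⟨z, hz⟩
      have : q ⟨z, hz⟩ - B.P = pr (SM (q ⟨z, hz⟩ - A.P) - y) + pr y' := by
        rw [hqA, hqAB]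
        abel
      rw [this]
      calc ‖pr (SM (q ⟨z, hz⟩ - A.P) - y) + pr y'‖
          ≤ ‖pr (SM (q ⟨z, hz⟩ - A.P) - y)‖ + ‖pr y'‖ := norm_add_le _ _
        _ ≤ ‖SM (q ⟨z, hz⟩ - A.P) - y‖ + ‖y'‖ := add_le_add (norm_pr_le _) (norm_pr_le _)
        _ < 2 * B.r := by
          have := lt_of_lt_of_le hξ' (min_le_right _ _)
          linarith
    exact ⟨⟨z, hzA, hzB⟩, rfl⟩
  · rintro ⟨z, hzB⟩ hξ
    have hz : z.1 ∉ S := B.hball hzB
    have hξ' : ‖SM (q ⟨z, hz⟩ - B.P) - y'‖ < min A.r B.r := hξ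
    have hzA : z ∈ Metric.ball A.z A.ε := by
      apply A.grab ⟨z, hz⟩
      have : q ⟨z, hz⟩ - A.P = pr (SM (q ⟨z, hz⟩ - B.P) - y') + pr y := by
        rw [hqB, ← hqAB]
        abel
      rw [this]
      calc ‖pr (SM (q ⟨z, hz⟩ - B.P) - y') + pr y‖
          ≤ ‖pr (SM (q ⟨z, hz⟩ - B.P) - y')‖ + ‖pr y‖ := norm_add_le _ _
        _ ≤ ‖SM (q ⟨z, hz⟩ - B.P) - y'‖ + ‖y‖ := add_le_add (norm_pr_le _) (norm_pr_le _)
        _ < 2 * A.r := by
          have := lt_of_lt_of_le hξ' (min_le_left _ _)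
          linarith
    exact ⟨⟨z, hzA, hzB⟩, rfl⟩

theorem tr_good_bad (hs : Setup S F q) (A : Good S F q) (B : Bad S F q) : ∃ δ, 0 < δ ∧ ∀ y y',
    ‖y‖ ≤ A.ρ / 2 → ‖y'‖ ≤ B.r → A.P + pr y = B.P + pr y' →
      TrL (A.chart hs) (B.chart hs) y y' δ := by
  have hA := A.hρ
  have hB := B.hr
  have hB' := B.hr'
  refine ⟨min (A.ρ / 2) B.r, lt_min (by linarith) hB, ?_⟩
  intro y y' hy hy' hP
  set δ := min (A.ρ / 2) B.r with hδ
  have hdA : δ ≤ A.ρ / 2 := min_le_left _ _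
  have hdB : δ ≤ B.r := min_le_right _ _
  have mA : ∀ u ∈ Metric.ball (0 : R3) δ, y + u ∈ Metric.ball (0 : R3) A.ρ := by
    intro u hu
    rw [mem_ball_zero_iff] at hu ⊢
    calc ‖y + u‖ ≤ ‖y‖ + ‖u‖ := norm_add_le _ _
      _ < A.ρ := by linarith
  have hn : ∀ u ∈ Metric.ball (0 : R3) δ, ‖y' + u‖ < 2 * B.r := by
    intro u hu
    rw [mem_ball_zero_iff] at hu
    calc ‖y' + u‖ ≤ ‖y'‖ + ‖u‖ := norm_add_le _ _
      _ < 2 * B.r := by linarith
  have hqv : ∀ (t : ℝ), ∀ u ∈ Metric.ball (0 : R3) δ, q (F t (A.σ (y + u))) - B.P = pr (y' + u) := by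
    intro t u hu
    have e1 : q (F t (A.σ (y + u))) = A.P + pr (y + u) := by
      rw [← A.hq _ (mA u hu)]
      exact ((hs.fibre _ _).2 ⟨t, rfl⟩).symm
    rw [e1, pr_add, ← add_assoc, hP, pr_add]
    abel
  have mB : ∀ (t : ℝ), ∀ u ∈ Metric.ball (0 : R3) δ, (F t (A.σ (y + u))).1 ∈ Metric.ball B.z B.ε := by
    intro t u hu
    apply B.grab
    rw [hqv t u hu]
    exact lt_of_le_of_lt (norm_pr_le _) (hn u hu)
  have hc1 : Continuous (fun z : GX δ => A.σ (y + z.1.1)) := by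
    refine A.hσ.comp_continuous (by fun_prop) (fun z => mA _ z.2)
  refine ⟨GX δ, inferInstance, preconn_GX δ, fun z => ⟨(y + z.1.1, z.1.2), mA _ z.2⟩,
    fun z => ⟨(F z.1.2 (A.σ (y + z.1.1))).1, mB _ _ z.2⟩, ?_, ?_, ?_, ?_, ?_, ?_⟩
  · exact Continuous.subtype_mk (by fun_prop) _
  · refine Continuous.subtype_mk ?_ _
    exact continuous_subtype_val.comp
      (hs.cont.comp ((continuous_snd.comp continuous_subtype_val).prodMk hc1))
  · intro z
    rfl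
  · intro z
    show y + z.1.1 - y = SM (q (F z.1.2 (A.σ (y + z.1.1))) - B.P) - y'
    rw [hqv _ _ z.2, SM_pr]
    · abel
    · exact lt_of_lt_of_le (hn _ z.2) (by linarith)
  · rintro ⟨⟨v, t⟩, hv⟩ hξ
    have hξ' : ‖v - y‖ < δ := hξ
    refine ⟨⟨(v - y, t), ?_⟩, ?_⟩
    · show v - y ∈ Metric.ball (0 : R3) δ
      rwa [mem_ball_zero_iff]
    · apply Subtype.ext
      show (y + (v - y), t) = (v, t)
      rw [add_sub_cancel]
  · rintro ⟨z, hzB⟩ hξ
    have hz : z.1 ∉ S := B.hball hzB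
    have hξ' : ‖SM (q ⟨z, hz⟩ - B.P) - y'‖ < δ := hξ
    set u := SM (q ⟨z, hz⟩ - B.P) - y' with hu
    have hub : u ∈ Metric.ball (0 : R3) δ := by rwa [mem_ball_zero_iff]
    have hqz : q (A.σ (y + u)) = q ⟨z, hz⟩ := by
      have e1 := hqv 0 u hub
      rw [hs.zero] at e1
      have e2 : pr (y' + u) = q ⟨z, hz⟩ - B.P := by
        rw [hu, add_sub_cancel, pr_SM]
      rw [e2] at e1
      exact sub_left_inj.1 e1
    obtain ⟨t, ht⟩ := (hs.fibre _ _).1 hqz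
    refine ⟨⟨(u, t), hub⟩, ?_⟩
    apply Subtype.ext
    show (F t (A.σ (y + u))).1 = z
    rw [ht]

end ModD

end Pool.Agent.Helper59_Flow
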